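import Pool.Agent.Helper93.EX.Ae4

/-!
# AW (MP_fb29e9_nt, AlmostEveryOval v6): the frequency of the large values at the worst centre

`LS F t A B` is the measure of the radii `R` in `[A, B]` with `t g(R) < F R c` for SOME centre `c`; `LSc` the same with `≤`.
-/

open MeasureTheory Real Set

set_option autoImplicit false

namespace Pool.Agent.Helper22.AW

open Pool.Agent.Helper93.AO
open Pool.Agent.Helper93.EX
open Pool.Agent.Helper88.EX (Es)

/-- the measure of the radii with a large value at some centre -/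
noncomputable def LS (F : ℝ → ℝ × ℝ → ℝ) (t A B : ℝ) : ℝ := volume.real {R : ℝ | R ∈ Icc A B ∧ ∃ c : ℝ × ℝ, t * gR R < F R c}

/-- the same with `≤` -/
noncomputable def LSc (F : ℝ → ℝ × ℝ → ℝ) (t A B : ℝ) : ℝ := volume.real {R : ℝ | R ∈ Icc A B ∧ ∃ c : ℝ × ℝ, t * gR R ≤ F R c}

/-- the law of the large values at the worst centre, at dyadic scales: the upper bound -/
def LawS (σ : ℝ) (H : ℝ → ℝ) : Prop :=
  ∀ t : ℝ, 0 < t → ∀ ε : ℝ, 0 < ε → ∃ p₀ : ℕ, ∀ p : ℕ, p₀ ≤ p →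
    LS (fun R c => Es σ H c R) t (2 ^ p) (2 ^ (p + 1)) ≤ 2 ^ ((1 - (t / (kap σ * aff H ^ (3 / 4 : ℝ))) ^ 4 + ε) * p : ℝ)

theorem LS_le_LSc {F G : ℝ → ℝ × ℝ → ℝ} (h : ∀ R c, F R c ≤ G R c) (t A B : ℝ) : LS F t A B ≤ LSc G t A B :=
  measureReal_mono (fun _ hR => ⟨hR.1, hR.2.choose, hR.2.choose_spec.le.trans (h _ _)⟩) (((measure_mono fun _ hR => hR.1).trans_lt measure_Icc_lt_top).ne)

theorem LSc_mono {F G : ℝ → ℝ × ℝ → ℝ} (h : ∀ R c, F R c ≤ G R c) (t A B : ℝ) : LSc F t A B ≤ LSc G t A B :=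
  measureReal_mono (fun _ hR => ⟨hR.1, hR.2.choose, hR.2.choose_spec.trans (h _ _)⟩) (((measure_mono fun _ hR => hR.1).trans_lt measure_Icc_lt_top).ne)

end Pool.Agent.Helper22.AW
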